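import Pool.Agent.Run7.h549.TS5

/-! Q1 of MP_29bdbb_an: the entropy `ln ρ(A)` of every nonempty matrix shift `X_A` is the entropy
of a tree-shift of finite type. Moreover, for every `d ≥ 2` it is the entropy of a tree-shift of
finite type on the `d`-ary tree if and only if `ln ρ(A) ≤ ln d`. -/

namespace Pool.Agent.Results.MP_29bdbb_an.MatrixShiftEntropies

open Run7.h549.TS

/-- A point of the matrix shift gives positive entries of the powers. -/
theorem one_le_pow {V : Type} [Fintype V] [DecidableEq V] (A : Matrix V V ℕ)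
    (x : ℤ → V) (hx : x ∈ matrixShift A) (k : ℕ) : 1 ≤ (A ^ k) (x 0) (x k) := by
  induction k with
  | zero => simp
  | succ k ih =>
      rw [pow_succ, Matrix.mul_apply]
      have h1 : (A ^ k) (x 0) (x k) * A (x k) (x ((k + 1 : ℕ) : ℤ)) ≤
          ∑ c, (A ^ k) (x 0) c * A c (x ((k + 1 : ℕ) : ℤ)) :=
        Finset.single_le_sum (f := fun c => (A ^ k) (x 0) c * A c (x ((k + 1 : ℕ) : ℤ)))
          (fun c _ => Nat.zero_le _) (Finset.mem_univ (x k))
      have h2 : A (x k) (x ((k + 1 : ℕ) : ℤ)) = 1 := by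
        have := hx k
        push_cast
        exact this
      rw [h2, mul_one] at h1
      exact le_trans ih h1

theorem mrs_pos {V : Type} [Fintype V] [DecidableEq V] (A : Matrix V V ℕ)
    (x : ℤ → V) (hx : x ∈ matrixShift A) (k : ℕ) : 1 ≤ mrs A k := by
  refine le_trans ?_ (rs_le_mrs A k (x 0))
  exact le_trans (one_le_pow A x hx k)
    (Finset.single_le_sum (f := fun b => (A ^ k) (x 0) b) (fun b _ => Nat.zero_le _)
      (Finset.mem_univ _))

theorem result :
    ∀ (V : Type) [Fintype V] [DecidableEq V] (A : Matrix V V ℕ),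
      (∀ a b, A a b = 0 ∨ A a b = 1) → (matrixShift A).Nonempty →
      (∃ d : ℕ, 2 ≤ d ∧ ∃ (S : Type) (_ : Finite S) (X : Set (LTree d S)),
        IsTSFT X ∧ X.Nonempty ∧ HasEntropy X (matrixEntropy A)) ∧
      (∀ d : ℕ, 2 ≤ d →
        ((∃ (S : Type) (_ : Finite S) (X : Set (LTree d S)),
          IsTSFT X ∧ X.Nonempty ∧ HasEntropy X (matrixEntropy A)) ↔
        matrixEntropy A ≤ Real.log d)) := by
  intro V _ _ A hA hne
  obtain ⟨x, hx⟩ := hne
  haveI : Nonempty V := ⟨x 0⟩
  have hpos := mrs_pos A x hx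
  refine ⟨⟨Fintype.card V + 2, by omega, realise0 A hpos _ (fun a => ?_)⟩,
    fun d hd => ⟨?_, fun hle => ?_⟩⟩
  · calc ∑ b, A a b ≤ ∑ _b : V, 1 := Finset.sum_le_sum (fun b _ => by
          rcases hA a b with h | h <;> omega)
      _ ≤ Fintype.card V + 2 := by simp
  · rintro ⟨S, hS, X, _, _, hX⟩
    exact entropy_le hd X _ hX
  · rcases hle.lt_or_eq with hlt | heq
    · exact realise_strict A hpos d hd hlt
    · rw [heq]
      exact realise_eq d hd

end Pool.Agent.Results.MP_29bdbb_an.MatrixShiftEntropies
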